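import Pool.Agent.Q99.SML10.Mul

/-!
# Families of powers of braids on arbitrary lines in the space of exponents
-/

set_option autoImplicit false

open Finset LaurentPolynomial Pool.Agent.H891R2.Jones Pool.Agent.W639.RB Polynomial

namespace Q99.SML10

open Q99.SML Q99.SML2 Q99.SML4 Q99.SML8

variable {m : ℕ} {K : Type*} [CommRing K]

theorem sU_one' {V : Type*} [AddCommGroup V] [Module K V] :
    (Q99.SML2.sU (1 : Kˣ) : (Module.End K V)ˣ) = 1 := by
  apply Units.ext
  show ((1 : Kˣ) : K) • (1 : Module.End K V) = 1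
  rw [Units.val_one, one_smul]

theorem cell_zpow (c : Kˣ) (a : Kˣ) (w : Word) (P : ℕ) (z : ℤ) :
    Cellular ((Q99.SML2.sU c * Q99.SML2.WU a w ^ P) ^ z : (Module.End K (NX m → K))ˣ).1 := by
  have h1 : ((Q99.SML2.sU c * Q99.SML2.WU a w ^ P) ^ z : (Module.End K (NX m → K))ˣ) =
      Q99.SML2.sU (c ^ z) * (Q99.SML2.WU a w ^ P) ^ z := by
    rw [(Q99.SML2.sU_comm _ _).mul_zpow, Q99.SML2.sU_zpow]
  have h2 : ∀ n : ℕ, Cellular ((Q99.SML2.WU (m := m) a w ^ P) ^ n :
      (Module.End K (NX m → K))ˣ).1 := by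
    intro n
    rw [Units.val_pow_eq_pow_val, Units.val_pow_eq_pow_val]
    exact ((WU_cellular a w).pow P).pow n
  have h3 : ∀ n : ℕ, Cellular (((Q99.SML2.WU (m := m) a w ^ P) ^ n)⁻¹ :
      (Module.End K (NX m → K))ˣ).1 := by
    intro n
    have e : (((Q99.SML2.WU (m := m) a w ^ P) ^ n)⁻¹ : (Module.End K (NX m → K))ˣ) =
        (Q99.SML2.WU a (invWord w) ^ P) ^ n := by
      rw [Q99.SML2.WU_invWord, ← inv_pow, ← inv_pow]
    rw [e, Units.val_pow_eq_pow_val, Units.val_pow_eq_pow_val]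
    exact ((WU_cellular a (invWord w)).pow P).pow n
  rw [h1, Units.val_mul]
  refine (Cellular.one.smul _).mul ?_
  rcases z with n | n
  · have := h2 n
    rwa [← zpow_natCast] at this
  · rw [zpow_negSucc]
    exact h3 (n + 1)

/-- units which are trivial modulo `x` -/
theorem triv_zpow {V : Type*} [AddCommGroup V] [Module K V] (x : K) (N : (Module.End K V)ˣ)
    (B : Module.End K V) (hN : N.1 = 1 + x • B) (z : ℤ) :
    ∃ B' : Module.End K V, (N ^ z : (Module.End K V)ˣ).1 = 1 + x • B' := by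
  have hnat : ∀ n : ℕ, ∃ B' : Module.End K V, (N ^ n : (Module.End K V)ˣ).1 = 1 + x • B' := by
    intro n
    induction n with
    | zero => exact ⟨0, by rw [pow_zero, smul_zero, add_zero]; rfl⟩
    | succ n ih =>
      obtain ⟨B', h⟩ := ih
      refine ⟨B' + B + x • (B' * B), ?_⟩
      rw [pow_succ, Units.val_mul, h, hN]
      simp only [mul_add, add_mul, mul_one, one_mul, smul_mul_assoc, mul_smul_comm, smul_add]
      abel
  have hinv : ∀ (M : (Module.End K V)ˣ) (B' : Module.End K V), M.1 = 1 + x • B' →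
      ∃ B'' : Module.End K V, (M⁻¹ : (Module.End K V)ˣ).1 = 1 + x • B'' := by
    intro M B' hM
    refine ⟨-(B' * (M⁻¹ : (Module.End K V)ˣ).1), ?_⟩
    have h1 : M.1 * (M⁻¹ : (Module.End K V)ˣ).1 = 1 := Units.mul_inv M
    rw [hM, add_mul, one_mul, smul_mul_assoc] at h1
    rw [smul_neg, ← sub_eq_add_neg, eq_sub_iff_add_eq]
    exact h1
  rcases z with n | n
  · obtain ⟨B', h⟩ := hnat n
    exact ⟨B', by rw [← h, ← zpow_natCast]; rfl⟩
  · obtain ⟨B', h⟩ := hnat (n + 1)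
    rw [zpow_negSucc]
    exact hinv _ _ h

section

variable [IsDomain K] {F : Type*} [Field F]

/-- a power of the operator of a line -/
theorem ann_zpow (φ : K →+* F) (x : K) (hx : x ≠ 0) (hφ : ∀ y, φ y = 0 → x ∣ y)
    (a : Kˣ) (ha : Units.map (φ : K →* F) a = 1)
    (w : Word) (P : ℕ) (hP : wperm m w ^ P = 1) (e : ℤ)
    (he : Even (e - ((idx m w).length * P : ℕ))) (z : ℤ) :
    OpRec x (m.choose (m / 2)) (fun t : ℤ => ((((Q99.SML2.sU (Q99.SML2.eta a ^ e) *
      Q99.SML2.WU a w ^ P) ^ z) ^ t : (Module.End K (NX m → K))ˣ)).1) := by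
  obtain ⟨B', hB'⟩ := trivial_of φ x hx hφ
    (Q99.SML2.sU (Q99.SML2.eta a ^ e) * Q99.SML2.WU a w ^ P : (Module.End K (NX m → K))ˣ).1 (by
    intro v f
    have h2 := congrFun (WU_pow_map (m := m) φ a w P v) f
    rw [ha, WU_pow_one w P hP, mo_pow_apply, Pi.smul_apply, smul_eq_mul] at h2
    have h3 : (Q99.SML2.sU (Q99.SML2.eta a ^ e) * Q99.SML2.WU a w ^ P :
        (Module.End K (NX m → K))ˣ).1 v f =
      ((Q99.SML2.eta a ^ e : Kˣ) : K) *
        (Q99.SML2.WU a w ^ P : (Module.End K (NX m → K))ˣ).1 v f := rfl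
    rw [map_sub, h3, map_mul, eta_val φ a ha, h2, ← mul_assoc, sign_cancel F e _ he, one_mul,
      sub_self])
  obtain ⟨B, hB⟩ := triv_zpow x _ B' hB' z
  obtain ⟨R, h1, h2, h3⟩ := ((cell_zpow (Q99.SML2.eta a ^ e) a w P z).div x hx hB).ann
  exact OpRec.power _ B hB R h1 _ h2 h3

/-- the number of factors -/
def occ (C : ℕ) {k : ℕ} (v : Fin k → ℤ) : ℕ := ∏ j, if v j = 0 then 1 else C

/-- the operator of a family on a line with arbitrary direction -/
theorem line_op (hm : 0 < m) (φ : K →+* F) (x : K) (hx : x ≠ 0) (hφ : ∀ y, φ y = 0 → x ∣ y)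
    (a : Kˣ) (ha : Units.map (φ : K →* F) a = 1) :
    ∀ (k : ℕ) (w u : Fin k → Word) (P : ℕ) (_ : ∀ j, wperm m (w j) ^ P = 1)
      (s q v : Fin k → ℤ) (U : Fin m → Bool), ∃ Φ : ℤ → Module.End K (NX m → K),
        OpRec x (occ (m.choose (m / 2)) v) Φ ∧
        ∀ (O : Outer m) (_ : O.up = U) (t : ℤ),
          vec a (family O w u (s + (P : ℤ) • (q + t • v))) = Φ t (vec a O)
  | 0, _, _, _, _, _, _, v, _ => ⟨fun _ => 1, by
      have : occ (m.choose (m / 2)) v = 1 := by simp [occ]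
      rw [this]
      exact OpRec.const 1, fun _ _ _ => rfl⟩
  | k + 1, w, u, P, hP, s, q, v, U => by
    obtain ⟨e, Z, he, hZ⟩ := vec_power hm a (w 0) U P (hP 0) (s 0)
    set N := (Q99.SML2.sU (Q99.SML2.eta a ^ e) * Q99.SML2.WU a (w 0) ^ P :
      (Module.End K (NX m → K))ˣ) with hN
    set U1 := ((QU m (w 0) ^ (s 0)) (U, 0)).1 with hU1
    obtain ⟨Φ, hΦ, h⟩ := line_op hm φ x hx hφ a ha k (Fin.tail w) (Fin.tail u) P
      (fun j => hP j.succ) (Fin.tail s) (Fin.tail q) (Fin.tail v) (U1 ∘ fperm m (u 0))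
    set Y := ((Q99.SML2.eta a ^ (QU m (u 0) (U1, 0)).2 : Kˣ) : K) •
      (Q99.SML2.WU a (u 0) : (Module.End K (NX m → K))ˣ).1 with hY
    have hocc : occ (m.choose (m / 2)) v = occ (m.choose (m / 2)) (Fin.tail v) *
        (1 * ((if v 0 = 0 then 1 else m.choose (m / 2)) * 1)) := by
      unfold occ
      rw [Fin.prod_univ_succ]
      simp only [one_mul, mul_one]
      rw [mul_comm]
      rfl
    have hstep : OpRec x (if v 0 = 0 then 1 else m.choose (m / 2))
        (fun t : ℤ => (((N ^ v 0) ^ t : (Module.End K (NX m → K))ˣ)).1) := by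
      by_cases h0 : v 0 = 0
      · rw [if_pos h0, h0]
        simp only [zpow_zero, one_zpow]
        exact OpRec.const _
      · rw [if_neg h0]
        exact ann_zpow φ x hx hφ a ha (w 0) P (hP 0) e he (v 0)
    refine ⟨fun t => Φ t * (Y * ((((N ^ v 0) ^ t : (Module.End K (NX m → K))ˣ)).1 *
      ((N ^ q 0 : (Module.End K (NX m → K))ˣ).1 * Z))), ?_, ?_⟩
    · rw [hocc]
      exact hΦ.comp ((OpRec.const Y).comp (hstep.comp (OpRec.const _)))
    · intro O hO t
      have hq : (s + (P : ℤ) • (q + t • v)) 0 = s 0 + P * (q 0 + t * v 0) := rfl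
      rw [family, hq]
      have hup : (power O (w 0) (s 0 + P * (q 0 + t * v 0))).up = U1 := by
        rw [power_up (w 0) P (hP 0), hO]
      have htail : Fin.tail (s + (P : ℤ) • (q + t • v)) =
          Fin.tail s + (P : ℤ) • (Fin.tail q + t • Fin.tail v) := rfl
      rw [htail, h _ (by rw [Q99.SML4.draw_up, hup]) t, vec_draw hm a (u 0) U1 _ hup,
        hZ O hO (q 0 + t * v 0)]
      have e1 : (N ^ (q 0 + t * v 0) : (Module.End K (NX m → K))ˣ) =
          (N ^ v 0) ^ t * N ^ q 0 := by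
        rw [← zpow_mul, ← zpow_add, mul_comm (v 0) t, add_comm]
      rw [e1]
      rfl

/-- members of a family on a line with arbitrary direction -/
theorem line_rec (hm : 0 < m) (φ : K →+* F) (x : K) (hx : x ≠ 0) (hφ : ∀ y, φ y = 0 → x ∣ y)
    (a : Kˣ) (ha : Units.map (φ : K →* F) a = 1) {k : ℕ} (O : Outer m) (w u : Fin k → Word)
    (P : ℕ) (hP : ∀ j, wperm m (w j) ^ P = 1) (s q v : Fin k → ℤ) :
    IRecD x (occ (m.choose (m / 2)) v)
      (fun t : ℤ => spec a (family O w u (s + (P : ℤ) • (q + t • v))).close.fPoly) := by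
  obtain ⟨Φ, ⟨Q, h1, h2, h3⟩, h⟩ := line_op hm φ x hx hφ a ha k w u P hP s q v O.up
  refine ⟨Q, h1, h2, ?_⟩
  have h4 : (fun t : ℤ => spec a (family O w u (s + (P : ℤ) • (q + t • v))).close.fPoly) =
      fun t => Φ t (vec a O) (st0 m) := by
    funext t
    rw [← vec_eval hm, h O rfl t]
  rw [h4]
  exact h3 _ _

end

end Q99.SML10
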