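import Pool.Agent.Q99.SML10.Line

/-!
# Families of powers of braids whose exponents are affine functions of parameters
-/

set_option autoImplicit false

open Finset LaurentPolynomial Pool.Agent.H891R2.Jones Pool.Agent.W639.RB

namespace Q99.SML10

open Q99.SML Q99.SML2 Q99.SML4 Q99.SML8 Q99.SML6

theorem occ_le {C k κ : ℕ} (hC : 0 < C) (v : Fin k → ℤ) (h : #{j | v j ≠ 0} ≤ κ) :
    occ C v ≤ C ^ κ := by
  classical
  have h1 : occ C v = C ^ #{j | v j ≠ 0} := by
    unfold occ
    rw [Finset.card_eq_sum_ones, ← Finset.prod_pow_eq_pow_sum, Finset.prod_filter]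
    refine Finset.prod_congr rfl fun j _ => ?_
    by_cases hj : v j = 0
    · rw [if_pos hj, if_neg (by simpa using hj)]
    · rw [if_neg hj, if_pos hj, pow_one]
  rw [h1]
  exact Nat.pow_le_pow_right hC h

theorem IRecD.mono {K : Type*} [CommRing K] {x : K} {D D' : ℕ} {u : ℤ → K} (h : IRecD x D u)
    (hD : D ≤ D') : IRecD x D' u := by
  obtain ⟨P, h1, h2, h3⟩ := h
  exact ⟨P, h1, h2.trans hD, h3⟩

/-- members of a family on a line -/
theorem fam_line' {m k κ : ℕ} (hm : 0 < m) (O : Outer m) (w u : Fin k → Word) (P : ℕ)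
    (hP : ∀ j, wperm m (w j) ^ P = 1) (b v : Fin k → ℤ) (hv : #{j | v j ≠ 0} ≤ κ) :
    IRecD xx (m.choose (m / 2) ^ κ)
      (fun t : ℤ => (family O w u (b + ((P : ℤ) * t) • v)).close.fPoly) := by
  have h1 := line_rec hm at1 xx xx_ne xx_dvd (unitT 1) unitT_map O w u P hP b 0 v
  have h2 : (fun t : ℤ => (family O w u (b + ((P : ℤ) * t) • v)).close.fPoly) =
      fun t : ℤ => spec (unitT 1) (family O w u (b + (P : ℤ) • (0 + t • v))).close.fPoly := by
    funext t
    rw [spec_unitT_one, zero_add, smul_smul]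
  rw [h2]
  exact IRecD.mono h1 (occ_le (Nat.choose_pos (Nat.div_le_self _ _)) v hv)

/-- a combination of families and a constant on a line -/
theorem comb_line {r k : ℕ} {m : Fin r → ℕ} (hm : ∀ i, 0 < m i) (O : ∀ i, Outer (m i))
    (w u : Fin r → Fin k → Word) (P : ℕ) (hP : ∀ i j, wperm (m i) (w i j) ^ P = 1)
    (κ : Fin r → ℕ) (b v : Fin r → Fin k → ℤ) (hv : ∀ i, #{j | v i j ≠ 0} ≤ κ i)
    (c : Fin r → ℤ[T;T⁻¹]) (g : ℤ[T;T⁻¹]) :
    IRecD xx (∑ i, (m i).choose (m i / 2) ^ κ i + 1) (fun t : ℤ =>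
      ∑ i, c i * (family (O i) (w i) (u i) (b i + ((P : ℤ) * t) • v i)).close.fPoly - g) := by
  have h3 := (IRecD.sum (x := xx) (Finset.univ : Finset (Fin r))
      (fun i => (m i).choose (m i / 2) ^ κ i)
      (fun i => c i • (fun t : ℤ =>
        (family (O i) (w i) (u i) (b i + ((P : ℤ) * t) • v i)).close.fPoly))
      (fun i _ => (fam_line' (hm i) (O i) (w i) (u i) P (hP i) (b i) (v i) (hv i)).smul _)).add
      (IRecD.const (x := xx) (-g))
  have h4 : (fun t : ℤ =>
      ∑ i, c i * (family (O i) (w i) (u i) (b i + ((P : ℤ) * t) • v i)).close.fPoly - g) =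
      (∑ i, c i • (fun t : ℤ =>
        (family (O i) (w i) (u i) (b i + ((P : ℤ) * t) • v i)).close.fPoly)) + fun _ => -g := by
    funext t
    rw [Pi.add_apply, Finset.sum_apply, sub_eq_add_neg]
    rfl
  rw [h4]
  exact h3

/-- exponents which are affine functions of parameters -/
def aff {k l : ℕ} (b : Fin k → ℤ) (M : Fin k → Fin l → ℤ) (t : Fin l → ℤ) : Fin k → ℤ :=
  fun j => b j + ∑ i, M j i * t i

theorem aff_update {k l : ℕ} (b : Fin k → ℤ) (M : Fin k → Fin l → ℤ) (t : Fin l → ℤ)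
    (i : Fin l) (P s z : ℤ) : aff b M (Function.update t i (s + P * z)) =
      aff b M (Function.update t i s) + (P * z) • (fun j => M j i) := by
  classical
  funext j
  unfold aff
  rw [Pi.add_apply, Pi.smul_apply, smul_eq_mul]
  have h : ∀ y : ℤ, ∑ i', M j i' * Function.update t i y i' =
      M j i * y + ∑ i' ∈ univ.erase i, M j i' * t i' := by
    intro y
    rw [← Finset.add_sum_erase _ _ (Finset.mem_univ i), Function.update_self]
    congr 1
    refine Finset.sum_congr rfl fun i' hi' => ?_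
    rw [Function.update_of_ne (Finset.ne_of_mem_erase hi')]
  rw [h, h]
  ring

/-- the law in boxes, for residue classes of the parameters -/
theorem count_par {r k l : ℕ} {m : Fin r → ℕ} (hm : ∀ i, 0 < m i) (O : ∀ i, Outer (m i))
    (w u : Fin r → Fin k → Word) (P : ℕ) (hP0 : 0 < P)
    (hP : ∀ i j, wperm (m i) (w i j) ^ P = 1)
    (b : Fin r → Fin k → ℤ) (M : Fin r → Fin k → Fin l → ℤ) (κ : Fin r → ℕ)
    (hκ : ∀ i i', #{j | M i j i' ≠ 0} ≤ κ i) (c : Fin r → ℤ[T;T⁻¹]) (g : ℤ[T;T⁻¹])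
    (A : Fin l → Finset ℤ) (Bad : Finset (Fin l → ℤ))
    (hBad : ∀ t ∈ Bad, (∀ j, t j ∈ A j) ∧
      ∑ i, c i * (family (O i) (w i) (u i) (aff (b i) (M i) t)).close.fPoly = g ∧
      ∃ t' : Fin l → ℤ, ¬ ∑ i, c i *
        (family (O i) (w i) (u i) (aff (b i) (M i) (t + (P : ℤ) • t'))).close.fPoly = g) :
    #Bad ≤ (∑ i, (m i).choose (m i / 2) ^ κ i) * P * ∑ j, ∏ i ∈ univ.erase j, #(A i) := by
  classical
  rw [← faces_eq]
  refine box_count P hP0 (∑ i, (m i).choose (m i / 2) ^ κ i) l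
    (fun t => ∑ i, c i * (family (O i) (w i) (u i) (aff (b i) (M i) t)).close.fPoly = g)
    (fun t j s Z hZ hc z => ?_) A Bad hBad
  obtain ⟨R, hR1, hR2, hR3⟩ := comb_line hm O w u P hP κ
    (fun i => aff (b i) (M i) (Function.update t j s)) (fun i => fun j' => M i j' j)
    (fun i => hκ i j) c g
  have h1 := hR3.mem hR1 0 prime_zero.1 prime_zero.2 ⊥ reg_bot Z (fun z _ z' _ hd => by
      rw [zero_dvd_iff, sub_eq_zero] at hd
      exact hd) (fun z hz => by
      rw [Ideal.mem_bot, sub_eq_zero]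
      have h2 := hZ z hz
      show ∑ i, c i * (family (O i) (w i) (u i) (aff (b i) (M i) (Function.update t j s) +
        ((P : ℤ) * z) • (fun j' => M i j' j))).close.fPoly = g
      rw [← h2]
      refine Finset.sum_congr rfl fun i _ => ?_
      rw [← aff_update]) (hR2.trans hc) z
  rw [Ideal.mem_bot, sub_eq_zero] at h1
  show ∑ i, c i * (family (O i) (w i) (u i)
    (aff (b i) (M i) (Function.update t j (s + P * z)))).close.fPoly = g
  rw [← h1]
  refine Finset.sum_congr rfl fun i _ => ?_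
  rw [← aff_update]

end Q99.SML10
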