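import Pool.Agent.Q99.SML8.Congr
import Pool.Agent.Q99.SML4.Poly

/-!
# Products of sequences which are given by interpolation series
-/

set_option autoImplicit false

open Polynomial Finset TensorProduct

namespace Q99.SML10

open Q99.SML Q99.SML8

variable {K : Type*} [CommRing K] {x : K}

theorem IRec.add_same {P : K[X]} {u u' : ℤ → K} (h : IRec x P u) (h' : IRec x P u') :
    IRec x P (u + u') := by
  intro s
  obtain ⟨b, h1, h2⟩ := h s
  obtain ⟨b', h1', h2'⟩ := h' s
  refine ⟨b + b', fun Q => ?_, fun t => ?_⟩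
  · have h3 : phi (b + b') (P * Q) = phi b (P * Q) + phi b' (P * Q) := by
      generalize P * Q = R
      induction R using Polynomial.induction_on' with
      | add P Q hP hQ => rw [map_add, map_add, map_add, hP, hQ]; ring
      | monomial n a => rw [phi_monomial, phi_monomial, phi_monomial, Pi.add_apply]; ring
    rw [h3, h1, h1', add_zero]
  · rw [Pi.add_apply, h2, h2', ser_add]

theorem IRec.zero_same {P : K[X]} : IRec x P (0 : ℤ → K) := by
  intro s
  refine ⟨0, fun Q => ?_, fun t => ?_⟩
  · generalize P * Q = R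
    induction R using Polynomial.induction_on' with
    | add P Q hP hQ => rw [map_add, hP, hQ, add_zero]
    | monomial n a => rw [phi_monomial, Pi.zero_apply, mul_zero]
  · simp [Q99.SML8.ser]

theorem IRec.sum_same {ι : Type*} (s : Finset ι) {P : K[X]} (u : ι → ℤ → K)
    (h : ∀ i ∈ s, IRec x P (u i)) : IRec x P (∑ i ∈ s, u i) := by
  classical
  induction s using Finset.induction_on with
  | empty => exact IRec.zero_same
  | insert a s ha ih =>
    rw [Finset.sum_insert ha]
    exact IRec.add_same (h a (Finset.mem_insert_self _ _))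
      (ih fun i hi => h i (Finset.mem_insert_of_mem hi))

/-- an annihilated sequence as a sequence of values of powers of the root -/
theorem realize (P : K[X]) (hP : P.Monic) (b : ℕ → K) (h : Ann P b) (k : ℕ) :
    ((phi b) ∘ₗ AdjoinRoot.modByMonicHom hP) ((AdjoinRoot.root P) ^ k) = b k := by
  have h1 : (AdjoinRoot.root P) ^ k = AdjoinRoot.mk P (X ^ k) := by
    rw [map_pow, AdjoinRoot.mk_X]
  rw [h1, LinearMap.comp_apply, AdjoinRoot.modByMonicHom_mk, ← phi_X_pow b k]
  conv_rhs => rw [← Polynomial.modByMonic_add_div (X ^ k) P, map_add, h, add_zero]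

/-- the operator for products -/
noncomputable def prodOp (x : K) (P P' : K[X]) :
    Module.End K (AdjoinRoot P ⊗[K] AdjoinRoot P') :=
  TensorProduct.map (Algebra.lmul K _ (AdjoinRoot.root P)) LinearMap.id +
    TensorProduct.map LinearMap.id (Algebra.lmul K _ (AdjoinRoot.root P')) +
    x • TensorProduct.map (Algebra.lmul K _ (AdjoinRoot.root P))
      (Algebra.lmul K _ (AdjoinRoot.root P'))

theorem one_add_prodOp (P P' : K[X]) : 1 + x • prodOp x P P' =
    TensorProduct.map (1 + x • Algebra.lmul K _ (AdjoinRoot.root P))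
      (1 + x • Algebra.lmul K _ (AdjoinRoot.root P')) := by
  unfold prodOp
  rw [TensorProduct.map_add_left, TensorProduct.map_add_right, TensorProduct.map_add_right,
    TensorProduct.map_smul_left, TensorProduct.map_smul_right, TensorProduct.map_smul_left,
    TensorProduct.map_smul_right]
  have h1 : TensorProduct.map (1 : Module.End K (AdjoinRoot P))
      (1 : Module.End K (AdjoinRoot P')) = 1 := TensorProduct.map_id
  rw [h1]
  simp only [smul_add, smul_smul]
  show _ = 1 + x • TensorProduct.map LinearMap.id (Algebra.lmul K _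
    (AdjoinRoot.root P')) + (_ • TensorProduct.map _ LinearMap.id + _)
  abel

theorem pow_prodOp (P P' : K[X]) (y : AdjoinRoot P) (z : AdjoinRoot P') (t : ℕ) :
    ((1 + x • prodOp x P P') ^ t) (y ⊗ₜ z) =
      (((1 + x • Algebra.lmul K _ (AdjoinRoot.root P)) ^ t) y) ⊗ₜ
        (((1 + x • Algebra.lmul K _ (AdjoinRoot.root P')) ^ t) z) := by
  induction t with
  | zero => rfl
  | succ t ih =>
    rw [pow_succ', Module.End.mul_apply, ih, one_add_prodOp, TensorProduct.map_tmul, pow_succ',
      pow_succ', Module.End.mul_apply, Module.End.mul_apply]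

theorem IRec.mul [Nontrivial K] (x : K) (P P' : K[X]) (hP : P.Monic) (hP' : P'.Monic) :
    ∃ Q : K[X], Q.Monic ∧
      Q.natDegree = P.natDegree * P'.natDegree ∧ ∀ u u' : ℤ → K, IRec x P u → IRec x P' u' →
        IRec x Q (u * u') := by
  have f1 : Module.Free K (AdjoinRoot P) := Module.Free.of_basis (AdjoinRoot.powerBasis' hP).basis
  have f2 : Module.Free K (AdjoinRoot P') :=
    Module.Free.of_basis (AdjoinRoot.powerBasis' hP').basis
  have g1 : Module.Finite K (AdjoinRoot P) := (AdjoinRoot.powerBasis' hP).finite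
  have g2 : Module.Finite K (AdjoinRoot P') := (AdjoinRoot.powerBasis' hP').finite
  refine ⟨(prodOp x P P').charpoly, LinearMap.charpoly_monic _, ?_, fun u u' h h' s => ?_⟩
  · rw [LinearMap.charpoly_natDegree, Module.finrank_tensorProduct,
      (AdjoinRoot.powerBasis' hP).finrank, (AdjoinRoot.powerBasis' hP').finrank,
      AdjoinRoot.powerBasis'_dim, AdjoinRoot.powerBasis'_dim]
  · obtain ⟨b, h1, h2⟩ := h s
    obtain ⟨b', h1', h2'⟩ := h' s
    set l := (phi b) ∘ₗ AdjoinRoot.modByMonicHom hP with hl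
    set l' := (phi b') ∘ₗ AdjoinRoot.modByMonicHom hP' with hl'
    let L : AdjoinRoot P ⊗[K] AdjoinRoot P' →ₗ[K] K :=
      LinearMap.mul' K K ∘ₗ TensorProduct.map l l'
    refine ⟨fun k => L ((prodOp x P P' ^ k) (1 ⊗ₜ 1)), Q99.SML8.end_ann _ L _ _
      (LinearMap.aeval_self_charpoly _), fun t => ?_⟩
    rw [← Q99.SML8.end_seq, pow_prodOp]
    show u (s + t) * u' (s + t) = l _ * l' _
    rw [h2, h2', Q99.SML8.end_seq, Q99.SML8.end_seq]
    have e1 : ∀ k, l (((Algebra.lmul K (AdjoinRoot P) (AdjoinRoot.root P)) ^ k) 1) = b k := by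
      intro k
      rw [← map_pow]
      show l (AdjoinRoot.root P ^ k * 1) = _
      rw [mul_one]
      exact realize P hP b h1 k
    have e2 : ∀ k, l' (((Algebra.lmul K (AdjoinRoot P') (AdjoinRoot.root P')) ^ k) 1) =
        b' k := by
      intro k
      rw [← map_pow]
      show l' (AdjoinRoot.root P' ^ k * 1) = _
      rw [mul_one]
      exact realize P' hP' b' h1' k
    simp only [e1, e2]

theorem IRec.const_X (g : K) : IRec x X (fun _ : ℤ => g) := by
  intro s
  refine ⟨fun k => if k = 0 then g else 0, ?_, fun t => ?_⟩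
  · intro Q
    induction Q using Polynomial.induction_on' with
    | add P Q hP hQ => rw [mul_add, map_add, hP, hQ, add_zero]
    | monomial n a =>
      rw [Polynomial.X_mul_monomial, phi_monomial]
      simp
  · unfold Q99.SML8.ser
    rw [Finset.sum_eq_single 0]
    · simp
    · intro j _ hj
      simp [hj]
    · intro h
      simp at h

/-! ### operators -/

variable {ι : Type*} [Fintype ι]

/-- all entries are given by interpolation series annihilated by one monic polynomial of degree at
most `D` -/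
def OpRec (x : K) (D : ℕ) (Φ : ℤ → Module.End K (ι → K)) : Prop :=
  ∃ Q : K[X], Q.Monic ∧ Q.natDegree ≤ D ∧ ∀ (v : ι → K) (f : ι), IRec x Q (fun t => Φ t v f)

omit [Fintype ι] in
theorem OpRec.const [Nontrivial K] (Z : Module.End K (ι → K)) : OpRec x 1 (fun _ : ℤ => Z) :=
  ⟨X, monic_X, by rw [natDegree_X], fun v f => IRec.const_X (Z v f)⟩

omit [Fintype ι] in
theorem OpRec.mono {D D' : ℕ} {Φ : ℤ → Module.End K (ι → K)} (h : OpRec x D Φ) (hD : D ≤ D') :
    OpRec x D' Φ := by
  obtain ⟨Q, h1, h2, h3⟩ := h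
  exact ⟨Q, h1, h2.trans hD, h3⟩

theorem OpRec.comp [Nontrivial K] {D D' : ℕ} {Φ Ψ : ℤ → Module.End K (ι → K)}
    (h : OpRec x D Φ) (h' : OpRec x D' Ψ) : OpRec x (D * D') (fun t => Φ t * Ψ t) := by
  classical
  obtain ⟨Q, h1, h2, h3⟩ := h
  obtain ⟨Q', h1', h2', h3'⟩ := h'
  obtain ⟨R, r1, r2, r3⟩ := IRec.mul x Q Q' h1 h1'
  refine ⟨R, r1, by rw [r2]; exact Nat.mul_le_mul h2 h2', fun v f => ?_⟩
  have key : (fun t => (Φ t * Ψ t) v f) = ∑ y : ι,
      ((fun t => Φ t (Pi.single y 1) f) * (fun t => Ψ t v y)) := by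
    funext t
    have e1 : Ψ t v = ∑ y, Ψ t v y • (Pi.single y 1 : ι → K) := by
      funext z
      rw [Finset.sum_apply, Finset.sum_eq_single z]
      · simp
      · intro y _ hy
        simp [hy.symm]
      · intro hx
        exact absurd (Finset.mem_univ _) hx
    rw [Module.End.mul_apply, e1, map_sum, Finset.sum_apply, Finset.sum_apply]
    refine Finset.sum_congr rfl fun y _ => ?_
    rw [map_smul, Pi.smul_apply, smul_eq_mul, Pi.mul_apply, mul_comm]
  rw [key]
  exact IRec.sum_same _ _ fun y _ => r3 _ _ (h3 _ f) (h3' v y)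

omit [Fintype ι] in
theorem OpRec.power (N : (Module.End K (ι → K))ˣ) (B : Module.End K (ι → K))
    (hN : N.1 = 1 + x • B) (R : K[X]) (hR : R.Monic) (D : ℕ) (hD : R.natDegree ≤ D)
    (hB : aeval B R = 0) : OpRec x D (fun t : ℤ => (N ^ t : (Module.End K (ι → K))ˣ).1) :=
  ⟨R, hR, hD, fun v f => IRec.of_end N B hN R hB (LinearMap.proj f) v⟩

end Q99.SML10
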